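import Pool.Agent.H24.IR

set_option autoImplicit false

namespace Pool.Agent.Results.MP_cd4b59_co.PathNine

open Pool.Agent.H24.IR

def mask : Fin 9 → ℕ := ![450, 416, 344, 176, 96, 384, 384, 0, 0]

/-- edges: 0-1 0-6 0-7 0-8 1-5 1-7 1-8 2-3 2-4 2-6 2-8 3-4 3-5 3-7 4-5 4-6 5-7 5-8 6-7 6-8 -/
def G : SimpleGraph (Fin 9) := ofB fun a b => (mask a).testBit b.val

instance : DecidableRel G.Adj := by unfold G; infer_instance

def X : Fin 9 → Finset (Fin 9) := ![{0, 2, 5}, {0, 2, 8}, {2, 6, 8}, {4, 6, 8}, {4, 7, 8}, {4, 5, 7}, {3, 5, 7}, {1, 3, 7}, {1, 3, 6}]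

theorem X_inj : Function.Injective X := by decide +kernel

theorem X_irr : ∀ i, Irredundant G (X i) ∧ (X i).card = 3 := by decide +kernel

theorem X_all : ∀ S, Irredundant G S → S.card ≤ 3 ∧ (S.card = 3 → ∃ i, S = X i) :=
  hall_three G X (by decide +kernel) (by decide +kernel)

theorem X_adj : ∀ i j : Fin 9,
    (∃ u v : Fin 9, X i \ X j = {u} ∧ X j \ X i = {v} ∧ G.Adj u v) ↔
    (i.val + 1 = j.val ∨ j.val + 1 = i.val) := by decide +kernel

theorem result :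
    ∃ G : SimpleGraph (Fin 9), Nonempty (IRGraph G ≃g SimpleGraph.pathGraph 9) := by
  obtain ⟨e, he⟩ := equiv_of (Irredundant G) X X_inj X_irr X_all
  refine ⟨G, ⟨SimpleGraph.Iso.symm ⟨e, ?_⟩⟩⟩
  intro i j
  rw [SimpleGraph.pathGraph_adj, ← X_adj, ← he, ← he]
  rfl

end Pool.Agent.Results.MP_cd4b59_co.PathNine
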